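import Pool.Agent.X249.NF.Cover

/-!
# The 2-interval pattern problem for {<, crossing} over disjoint ground sets is NP-complete

The reduction is from 3SAT. A run of a tape of bits (one cell for every clause and for every
variable) is described by the labels (left end / right end) of the vertices of a layered ordered
graph whose edges join consecutive layers. In a matching without nested edges the left ends of a
layer are matched in order with the right ends of the next layer, so the labels of a layer
determine which labels of the next layer are possible. A gadget with three passes moves the bit of
a clause over the value of a variable, and allows it to become one if the literal is true.
-/

namespace Pool.Agent.Results.MP_8c0258_lc.CoveringNPComplete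

open Pool.Agent.NPC Pool.Agent.X249.NF

/-- Both the covering version and the maximum cardinality version are NP-complete. -/
theorem result : (InNPP Covering ∧ NPHardP Covering) ∧ (InNPP Pattern ∧ NPHardP Pattern) :=
  ⟨⟨inNP_covering, hard_covering.toNPHardP⟩, inNP_pattern, hard_pattern.toNPHardP⟩

end Pool.Agent.Results.MP_8c0258_lc.CoveringNPComplete
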